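import Mathlib.Tactic.Linarith
import Mathlib.Tactic.Ring
import Mathlib.Tactic.Positivity
import Mathlib.Algebra.Order.Ring.Int

/-! The final arithmetic of the linear range (n at least 7k - 14). -/

namespace SIFFin

theorem fin5 (k D w q d h i F : ℤ)
    (hw : 0 ≤ w) (hk : w + 3 ≤ k) (hD : 5 * (k - 2) ≤ D)
    (hq : 0 ≤ q) (hd : 0 ≤ d) (hh : 0 ≤ h) (hi : 0 ≤ i) (_hF : 0 ≤ F)
    (hqd : q + d ≤ w) (hFD : F ≤ D - 1) (hF0 : d = 0 → F = 0)
    (h0 : D * h < w * (k - 2))
    (hA : (w - q) + w * d - w * h + (D - 1 - q) * h - d * F ≤ -1)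
    (hC : w + w * d - 2 * q - (w - i) * h + F ≤ -1)
    (hB : (w - q) + w * d - w * h + (w + 1 - d - i) * F - (w - d) * (k - 1) ≤ -1) :
    False := by
  have hDw : 5 * w + 5 ≤ D := by linarith
  rcases eq_or_lt_of_le hd with hd0 | hd1
  · have hd0' : d = 0 := hd0.symm
    have hFz := hF0 hd0'
    subst hd0'
    have h1 : 0 ≤ (D - 1 - q - w) * h := mul_nonneg (by linarith) hh
    nlinarith
  have hd1' : 1 ≤ d := hd1
  have hih : 0 ≤ i * h := mul_nonneg hi hh
  rcases lt_or_ge h d with hlt | hge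
  · have h1 : 0 ≤ w * (d - h - 1) := mul_nonneg hw (by linarith)
    nlinarith
  -- the inequality (A) with q replaced by w - d
  have hqh : q * h ≤ (w - d) * h := mul_le_mul_of_nonneg_right (by linarith) hh
  have hA' : 1 + d + w * d + (D - 1 - 2 * w + d) * h ≤ d * F := by nlinarith
  have ha : 3 * w + 4 + d ≤ D - 1 - 2 * w + d := by linarith
  have hFl : D - w + d + 1 ≤ F := by
    by_contra hcon
    have h1 : F ≤ D - w + d := by linarith [Int.lt_iff_add_one_le.mp (not_le.mp hcon)]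
    have h2 : d * F ≤ d * (D - w + d) := mul_le_mul_of_nonneg_left h1 hd
    have h3 : (D - 1 - 2 * w + d) * d ≤ (D - 1 - 2 * w + d) * h :=
      mul_le_mul_of_nonneg_left hge (by linarith)
    nlinarith
  rcases eq_or_lt_of_le hge with heq | hgt
  · subst heq
    nlinarith
  have hh1 : d + 1 ≤ h := hgt
  -- (i)
  have h5 : 5 * h < w := by
    by_contra hcon
    have h1 : w * (k - 2) ≤ 5 * h * (k - 2) :=
      mul_le_mul_of_nonneg_right (not_lt.mp hcon) (by linarith)
    have h2 : 5 * (k - 2) * h ≤ D * h := mul_le_mul_of_nonneg_right hD hh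
    nlinarith
  -- (ii)
  have h6 : (h - d) * (D - 1 - 2 * w + d) ≤ d * w := by
    have h1 : d * F ≤ d * (D - 1) := mul_le_mul_of_nonneg_left hFD hd
    have h2 : 0 ≤ d * d := mul_nonneg hd hd
    nlinarith
  -- (iii)
  have h7 : i * h ≤ w * (h - d) := by nlinarith
  -- (iv)
  have h8 : i * (D - 1 - 2 * w) ≤ w * w := by
    have hpos : 0 < h := by linarith
    have h1 : i * h * (D - 1 - 2 * w) ≤ w * (h - d) * (D - 1 - 2 * w) :=
      mul_le_mul_of_nonneg_right h7 (by linarith)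
    have h2 : w * (h - d) * (D - 1 - 2 * w) ≤ w * (h - d) * (D - 1 - 2 * w + d) :=
      mul_le_mul_of_nonneg_left (by linarith) (mul_nonneg hw (by linarith))
    have h3 : w * ((h - d) * (D - 1 - 2 * w + d)) ≤ w * (d * w) :=
      mul_le_mul_of_nonneg_left h6 hw
    have h4 : w * w * d ≤ w * w * h := mul_le_mul_of_nonneg_left hge (mul_nonneg hw hw)
    have h5' : (i * (D - 1 - 2 * w)) * h ≤ (w * w) * h := by nlinarith
    exact le_of_mul_le_mul_right h5' hpos
  have h9 : 3 * i < w := by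
    by_contra hcon
    have h1 : w ≤ 3 * i := not_lt.mp hcon
    have h2 : i * (3 * w + 4) ≤ i * (D - 1 - 2 * w) :=
      mul_le_mul_of_nonneg_left (by linarith) hi
    have h3 : w * (3 * w + 4) ≤ 3 * i * (3 * w + 4) :=
      mul_le_mul_of_nonneg_right h1 (by linarith)
    have h4 : 0 < w := by linarith
    nlinarith
  -- (v)
  have h10 : 5 * d + 6 ≤ w := by linarith [Int.lt_iff_add_one_le.mp h5]
  have h11 : 3 * i + 1 ≤ w := h9
  have h12 : 7 * w + 23 ≤ 15 * (w + 1 - d - i) := by linarith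
  have h13 : 4 * (k - 2) + 3 ≤ F := by linarith
  have h14 : (7 * w + 23) * (4 * (k - 2) + 3) ≤ 15 * (w + 1 - d - i) * F :=
    mul_le_mul h12 h13 (by linarith) (by linarith)
  have h15 : w * (5 * h) ≤ w * w := mul_le_mul_of_nonneg_left h5.le hw
  have h16 : w * w ≤ w * (k - 3) := mul_le_mul_of_nonneg_left (by linarith) hw
  have h17 : 0 ≤ w * d := mul_nonneg hw hd
  have h18 : 0 ≤ d * (k - 1) := mul_nonneg hd (by linarith)
  have h19 : 0 ≤ w * (k - 2) := mul_nonneg hw (by linarith)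
  nlinarith

end SIFFin
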